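import Pool.Agent.Run7.h378.PS.Stm

/-! Piece PO of project PS (helper378), MP_2f3180_ag. -/

set_option autoImplicit false

namespace Pool.Agent.Run7.h532.PS

open Run7.h378.PS MvPolynomial Filter Topology

lemma summ (x : ℕ → ℝ) (hx : Summable (fun i => x i ^ 2)) (h1 : ∑' i, x i ^ 2 = 1) (j : ℕ) :
    Summable (fun i => x i ^ (2 + j)) := by
  have hle : ∀ i, x i ^ 2 ≤ 1 := by
    intro i
    rw [← h1]
    exact hx.le_tsum i (fun _ _ => sq_nonneg _)
  refine Summable.of_norm_bounded hx ?_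
  intro i
  rw [Real.norm_eq_abs, pow_add, abs_mul, abs_pow, abs_pow, sq_abs]
  have h2 : |x i| ≤ 1 := by
    have := hle i
    rw [← sq_abs] at this
    nlinarith [abs_nonneg (x i)]
  exact mul_le_of_le_one_right (sq_nonneg _) (pow_le_one₀ (abs_nonneg _) h2)

theorem t_PO : S_PO := by
  intro hH x hx h1
  set p : ℕ → ℝ := fun j => ∑' i, x i ^ j with hp
  have hv : val gg x = p 2 * hh (p 4) (p 6) (p 8) (p 10) (p 12) + p 20 := by
    unfold val gg hh
    simp only [map_add, map_mul, map_sub, map_pow, eval_X, map_ofNat]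
    rfl
  have hlim : ∀ j, Tendsto (fun n => ∑ i ∈ Finset.range n, x i ^ (2 + j)) atTop (𝓝 (p (2 + j))) :=
    fun j => (summ x hx h1 j).hasSum.tendsto_sum_nat
  have hh0 : 0 ≤ hh (p 4) (p 6) (p 8) (p 10) (p 12) := by
    have ht : Tendsto (fun n => hh (∑ i ∈ Finset.range n, x i ^ 4) (∑ i ∈ Finset.range n, x i ^ 6)
        (∑ i ∈ Finset.range n, x i ^ 8) (∑ i ∈ Finset.range n, x i ^ 10)
        (∑ i ∈ Finset.range n, x i ^ 12)) atTop (𝓝 (hh (p 4) (p 6) (p 8) (p 10) (p 12))) := by
      have a4 := hlim 2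
      have a6 := hlim 4
      have a8 := hlim 6
      have a10 := hlim 8
      have a12 := hlim 10
      norm_num at a4 a6 a8 a10 a12
      unfold hh
      exact ((((a4.pow 2).mul a10).add (a6.pow 3)).sub ((a4.const_mul 2).mul a6 |>.mul a8)).add
        (a8.mul a10) |>.sub (a6.mul a12)
    refine ge_of_tendsto' ht ?_
    intro n
    have := hH (Finset.range n) (fun i => x i ^ 2) (fun i => sq_nonneg _)
    simpa only [← pow_mul, Nat.reduceMul] using this
  have h20 : 0 < p 20 := by
    obtain ⟨i, hi⟩ : ∃ i, x i ≠ 0 := by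
      by_contra hcon
      push Not at hcon
      have : ∑' i, x i ^ 2 = 0 := by simp [hcon]
      rw [this] at h1
      norm_num at h1
    have hs : Summable (fun i => x i ^ 20) := summ x hx h1 18
    have hnn : ∀ k, 0 ≤ x k ^ 20 := fun k => by
      have : x k ^ 20 = (x k ^ 10) ^ 2 := by ring
      rw [this]; exact sq_nonneg _
    have hpos : 0 < x i ^ 20 := lt_of_le_of_ne (hnn i) (Ne.symm (pow_ne_zero _ hi))
    exact hs.tsum_pos hnn i hpos
  rw [hv]
  have hp2 : p 2 = 1 := h1
  rw [hp2, one_mul]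
  linarith

end Pool.Agent.Run7.h532.PS
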