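import Pool.Agent.Run7.h378.PS.Stm

/-! Piece G of project PS (helper378), MP_2f3180_ag: Robinson's form is not a sum of squares. -/

set_option autoImplicit false

namespace Pool.Agent.Run7.h532.PS

open Run7.h378.PS MvPolynomial

/-- the grid functional -/
noncomputable def LL (c : MvPolynomial (Fin 3) ℝ) : ℝ :=
  eval ![-1, -1, 1] c - 2 * eval ![-1, 0, 1] c + eval ![-1, 1, 1] c
  - 2 * (eval ![0, -1, 1] c - 2 * eval ![0, 0, 1] c + eval ![0, 1, 1] c)
  + (eval ![1, -1, 1] c - 2 * eval ![1, 0, 1] c + eval ![1, 1, 1] c)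

lemma LL_sum {ι : Type} (s : Finset ι) (f : ι → MvPolynomial (Fin 3) ℝ) :
    LL (∑ i ∈ s, f i) = ∑ i ∈ s, LL (f i) := by
  unfold LL
  simp only [map_sum, Finset.sum_add_distrib, Finset.sum_sub_distrib, ← Finset.mul_sum]

lemma LL_mon (m : Fin 3 →₀ ℕ) (r : ℝ) (h : m 0 + m 1 + m 2 ≤ 3) : LL (monomial m r) = 0 := by
  unfold LL
  simp only [eval_monomial, Finsupp.prod_fintype _ _ (fun _ => pow_zero _), Fin.prod_univ_three]
  simp only [Matrix.cons_val_zero, Matrix.cons_val_one, Matrix.cons_val, one_pow, mul_one]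
  have h2 : m 0 = 0 ∨ m 0 = 1 ∨ m 1 = 0 ∨ m 1 = 1 := by omega
  rcases h2 with h2 | h2 | h2 | h2 <;> rw [h2] <;> simp <;> ring

lemma LL_zero (c : MvPolynomial (Fin 3) ℝ) (h : c.totalDegree ≤ 3) : LL c = 0 := by
  rw [c.as_sum, LL_sum]
  refine Finset.sum_eq_zero ?_
  intro m hm
  refine LL_mon m _ ?_
  have h1 := (le_totalDegree hm).trans h
  rw [Finsupp.sum_fintype _ _ (fun _ => rfl), Fin.sum_univ_three] at h1
  exact h1

lemma RR_hom : (2 * RR).totalDegree ≤ 2 * 3 := by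
  have hX : ∀ (i : Fin 3) (n : ℕ), IsHomogeneous (X i ^ n : MvPolynomial (Fin 3) ℝ) n :=
    fun i n => isHomogeneous_X_pow i n
  have h42 : ∀ i j : Fin 3, IsHomogeneous (X i ^ 4 * X j ^ 2 : MvPolynomial (Fin 3) ℝ) 6 :=
    fun i j => (hX i 4).mul (hX j 2)
  have h222 : IsHomogeneous (3 * X 0 ^ 2 * X 1 ^ 2 * X 2 ^ 2 : MvPolynomial (Fin 3) ℝ) 6 := by
    have h3 : IsHomogeneous (3 : MvPolynomial (Fin 3) ℝ) 0 := isHomogeneous_C (Fin 3) (3 : ℝ)
    exact ((h3.mul (hX 0 2)).mul (hX 1 2)).mul (hX 2 2)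
  have h : IsHomogeneous RR 6 := by
    unfold RR
    exact (((((hX 0 6).add (hX 1 6)).add (hX 2 6)).sub
      ((((((h42 0 1).add (h42 0 2)).add (h42 1 0)).add (h42 1 2)).add (h42 2 0)).add (h42 2 1)))).add
      h222
  have h2 : IsHomogeneous (2 * RR) 6 := by rw [two_mul]; exact h.add h
  exact h2.totalDegree_le

theorem t_G : S_G := by
  intro hD ⟨r, q, hq⟩
  have hdeg : ∀ i, (q i).totalDegree ≤ 3 := hD 3 r 3 q (by rw [← hq]; exact RR_hom)
  have hev : ∀ p : Fin 3 → ℝ, 2 * eval p RR = ∑ i, (eval p (q i)) ^ 2 := by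
    intro p
    have := congrArg (eval p) hq
    rw [map_mul, map_sum, map_ofNat] at this
    simpa only [map_pow] using this
  have hz : ∀ p : Fin 3 → ℝ, eval p RR = 0 → ∀ i, eval p (q i) = 0 := by
    intro p hp i
    have h1 := hev p
    rw [hp, mul_zero] at h1
    have h2 := (Finset.sum_eq_zero_iff_of_nonneg (fun i _ => sq_nonneg (eval p (q i)))).mp h1.symm i
      (Finset.mem_univ i)
    exact pow_eq_zero_iff (two_ne_zero) |>.mp h2
  have hR : ∀ a b : ℝ, eval ![a, b, 1] RR = a ^ 6 + b ^ 6 + 1 - (a ^ 4 * b ^ 2 + a ^ 4 + b ^ 4 * a ^ 2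
      + b ^ 4 + a ^ 2 + b ^ 2) + 3 * a ^ 2 * b ^ 2 := by
    intro a b
    unfold RR
    simp only [map_add, map_sub, map_mul, map_pow, eval_X, map_ofNat, Matrix.cons_val_zero,
      Matrix.cons_val_one, Matrix.cons_val, one_pow, mul_one, one_mul]
  have h00 : ∀ i, eval ![0, 0, 1] (q i) = 0 := by
    intro i
    have h1 := LL_zero (q i) (hdeg i)
    unfold LL at h1
    rw [hz ![-1, -1, 1] (by rw [hR]; norm_num) i, hz ![-1, 0, 1] (by rw [hR]; norm_num) i,
      hz ![-1, 1, 1] (by rw [hR]; norm_num) i, hz ![0, -1, 1] (by rw [hR]; norm_num) i,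
      hz ![0, 1, 1] (by rw [hR]; norm_num) i, hz ![1, -1, 1] (by rw [hR]; norm_num) i,
      hz ![1, 0, 1] (by rw [hR]; norm_num) i, hz ![1, 1, 1] (by rw [hR]; norm_num) i] at h1
    linarith
  have hfin := hev ![0, 0, 1]
  rw [hR] at hfin
  simp only [h00] at hfin
  norm_num at hfin

end Pool.Agent.Run7.h532.PS
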